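import Pool.Agent.Helper45.PQ.StK

/-!
# Project PQ, module FIK: arithmetic
-/

set_option autoImplicit false

open Module Classical
open scoped LinearAlgebra.Projectivization

namespace Pool.Agent.Helper29.PQ

open Pool.Agent.Helper45.PQ

universe u v

private theorem fik_real {x y z N : ℝ} (hz : 1 ≤ z) (hy : 1 ≤ y) (hx : y + 2 ≤ x)
    (hN : z * (x ^ 2 + 1) ≤ N)
    (h : N * ((x ^ 2 + 1) * y + 1 + (x ^ 2 * (x - 1) - (x - 1 - y) * (x ^ 2 + 1)) ^ 2 /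
      ((x ^ 2 + 1) * (x - 1 - y))) ≤ x ^ 5) : y * (1 + z) < x := by
  obtain ⟨L, hL⟩ : ∃ L : ℝ, L = x - 1 - y := ⟨_, rfl⟩
  have hL1 : 1 ≤ L := by linarith
  have hx0 : 0 < x := by linarith
  rw [← hL] at h
  have hB : 0 < (x ^ 2 + 1) * y + 1 + (x ^ 2 * (x - 1) - L * (x ^ 2 + 1)) ^ 2 /
      ((x ^ 2 + 1) * L) := by positivity
  have h1 : z * (x ^ 2 + 1) * ((x ^ 2 + 1) * y + 1 +
      (x ^ 2 * (x - 1) - L * (x ^ 2 + 1)) ^ 2 / ((x ^ 2 + 1) * L)) ≤ x ^ 5 :=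
    (mul_le_mul_of_nonneg_right hN hB.le).trans h
  have h2 : z * (x ^ 2 + 1) * ((x ^ 2 + 1) * y + 1 +
      (x ^ 2 * (x - 1) - L * (x ^ 2 + 1)) ^ 2 / ((x ^ 2 + 1) * L)) * L =
      z * ((x ^ 2 + 1) * L * ((x ^ 2 + 1) * y + 1) +
        (x ^ 2 * (x - 1) - L * (x ^ 2 + 1)) ^ 2) := by
    have hA : (x ^ 2 + 1) ≠ 0 := by positivity
    have hL0 : L ≠ 0 := by positivity
    field_simp
  have h3 : z * ((x ^ 2 + 1) * L * ((x ^ 2 + 1) * y + 1) +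
      (x ^ 2 * (x - 1) - L * (x ^ 2 + 1)) ^ 2) ≤ x ^ 5 * L := by
    rw [← h2]
    exact mul_le_mul_of_nonneg_right h1 (by linarith)
  have h4 : z * ((x ^ 2 + 1) * L * ((x ^ 2 + 1) * y + 1) +
      (x ^ 2 * (x - 1) - L * (x ^ 2 + 1)) ^ 2) =
      x * (z * (y * (x ^ 2 + 1) * (x ^ 2 - x - 1) + (x ^ 2 - 1))) := by
    rw [hL]
    ring
  rw [h4] at h3
  have h5 : z * (y * (x ^ 2 + 1) * (x ^ 2 - x - 1) + (x ^ 2 - 1)) ≤ x ^ 4 * L := by
    have h6 : x ^ 5 * L = x * (x ^ 4 * L) := by ring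
    rw [h6] at h3
    exact le_of_mul_le_mul_left h3 hx0
  have h7 : y * (x ^ 2 + 1) * (x ^ 2 - x - 1) + (x ^ 2 - 1) =
      y * (x ^ 3 * (x - 1)) + (x + 1) * L := by
    rw [hL]
    ring
  rw [h7] at h5
  have h8 : 0 ≤ z * ((x + 1) * L) := by positivity
  have h9 : x ^ 3 * (z * y * (x - 1)) ≤ x ^ 3 * (x * L) := by nlinarith
  have h10 : z * y * (x - 1) ≤ x * L := le_of_mul_le_mul_left h9 (by positivity)
  rw [hL] at h10
  have h11 : y * (1 + z) * (x - 1) < x * (x - 1) := by nlinarith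
  exact lt_of_mul_lt_mul_right h11 (by linarith)

theorem hFIK : StFIK := by
  intro q e e' N he he' hq hN h
  have h1 := fik_real (x := q) (y := e') (z := e) (N := N) (by exact_mod_cast he)
    (by exact_mod_cast he') (by exact_mod_cast hq) hN h
  have h2 : e' * (1 + e) < q := by exact_mod_cast h1
  omega

end Pool.Agent.Helper29.PQ
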